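import Pool.Agent.W648.UN.Stm

/-!
UN project (owner helper648), task CONST: the constant profile.
-/

set_option autoImplicit false

open MeasureTheory Set Filter Topology
open scoped ContDiff

noncomputable section

namespace Pool.Agent.W82.UN.Const

open Pool.Agent.W648.UN

lemma ii_rpow {r : ℝ} (hr : -1 < r) : IntervalIntegrable (fun x : ℝ => (1 - x) ^ r) volume 0 1 := by
  have h := (intervalIntegral.intervalIntegrable_rpow' (a := 0) (b := 1) hr).comp_sub_left 1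
  simpa using h.symm

lemma int_rpow {r : ℝ} (hr : -1 < r) : ∫ x in (0 : ℝ)..1, (1 - x) ^ r = 1 / (r + 1) := by
  have h := intervalIntegral.integral_comp_sub_left (a := 0) (b := 1) (fun x : ℝ => x ^ r) 1
  rw [h]
  norm_num
  rw [integral_rpow (Or.inl hr)]
  have h1 : r + 1 ≠ 0 := by linarith
  rw [Real.zero_rpow h1, Real.one_rpow]
  ring

lemma ii_of_bd {g : ℝ → ℂ} {C : ℝ} (hc : ContinuousOn g (Ico (0 : ℝ) 1))
    (hb : ∀ x ∈ Ico (0 : ℝ) 1, ‖g x‖ ≤ C * (1 - x) ^ (-(1 / 2) : ℝ)) :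
    IntervalIntegrable g volume 0 1 := by
  rw [intervalIntegrable_iff_integrableOn_Ico_of_le zero_le_one]
  have h1 : IntegrableOn (fun x : ℝ => C * (1 - x) ^ (-(1 / 2) : ℝ)) (Ico (0 : ℝ) 1) := by
    have h2 := (ii_rpow (r := -(1 / 2)) (by norm_num)).const_mul C
    rwa [intervalIntegrable_iff_integrableOn_Ico_of_le zero_le_one] at h2
  refine Integrable.mono' h1 (hc.aestronglyMeasurable measurableSet_Ico) ?_
  filter_upwards [ae_restrict_mem measurableSet_Ico] with x hx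
  exact hb x hx

lemma nb_const {κ : ℝ} (hκ : |κ| ≤ 1 / 100) : NB (fun _ : ℝ => (κ : ℂ)) (1 / 20) := by
  refine ⟨aestronglyMeasurable_const, ?_, ?_⟩
  · have h2 := (ii_rpow (r := -(3 / 4)) (by norm_num)).const_mul ‖(κ : ℂ)‖
    rwa [intervalIntegrable_iff_integrableOn_Ioo_of_le zero_le_one] at h2
  · rw [← integral_Ioc_eq_integral_Ioo, ← intervalIntegral.integral_of_le zero_le_one,
      intervalIntegral.integral_const_mul, int_rpow (by norm_num)]
    rw [Complex.norm_real, Real.norm_eq_abs]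
    norm_num
    linarith

lemma zero_mem_Om : (0 : ℂ) ∈ Om := by simp [Om]

/-- derivative of a continuous square root -/
lemma hasDerivAt_of_sq {P : ℝ → ℂ} {x : ℝ} {w : ℂ} (hc : ContinuousAt P x) (h0 : P x ≠ 0)
    (h : HasDerivAt (fun y => P y ^ 2) w x) : HasDerivAt P (w / (2 * P x)) x := by
  rw [hasDerivAt_iff_tendsto_slope] at h ⊢
  have h1 : Tendsto (fun y => P y + P x) (𝓝[≠] x) (𝓝 (2 * P x)) := by
    have h2 : Tendsto (fun y => P y + P x) (𝓝 x) (𝓝 (P x + P x)) := hc.tendsto.add_const _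
    rw [← two_mul] at h2
    exact h2.mono_left nhdsWithin_le_nhds
  have h3 : 2 * P x ≠ 0 := mul_ne_zero two_ne_zero h0
  have h4 := h.div h1 h3
  refine h4.congr' ?_
  have h5 : ∀ᶠ y in 𝓝[≠] x, P y + P x ≠ 0 := h1.eventually_ne h3
  filter_upwards [h5] with y hy
  simp only [slope_def_module, Pi.div_apply]
  have e : P y ^ 2 - P x ^ 2 = (P y - P x) * (P y + P x) := by ring
  rw [e, Complex.real_smul, Complex.real_smul]
  field_simp

theorem th (hD : S_D) (hE : S_EX) (_hU : S_UN) (hUps : S_UPS) : S_CONST := by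
  intro κ hκ
  have hNB := nb_const hκ
  obtain ⟨p, q, E, hS⟩ := hE ℂ (fun _ : ℝ => (κ : ℂ)) 0 hNB zero_mem_Om
  rw [(hUps ℂ (fun _ : ℝ => (κ : ℂ)) 0 p q E hNB zero_mem_Om hS).1]
  obtain ⟨hD1, -, -, -, hD5⟩ := hD
  obtain ⟨d, hd⟩ : ∃ d : ℝ → ℝ, d = fun x => Real.sqrt (1 - x ^ 2) := ⟨_, rfl⟩
  have hdc : Continuous d := by rw [hd]; fun_prop
  have hDd : ∀ x ∈ Icc (0 : ℝ) 1, D 0 x = (d x : ℂ) := by
    intro x hx
    have h := hD5 0 le_rfl x hx
    rw [Complex.ofReal_zero] at h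
    rw [h, hd]
    simp
  have hdsq : ∀ x ∈ Icc (0 : ℝ) 1, d x ^ 2 = 1 - x ^ 2 := by
    intro x hx
    rw [hd]
    exact Real.sq_sqrt (by nlinarith [hx.1, hx.2])
  have hdpos : ∀ x ∈ Ico (0 : ℝ) 1, 0 < d x := by
    intro x hx
    rw [hd]
    exact Real.sqrt_pos.2 (by nlinarith [hx.1, hx.2])
  have hd0 : d 0 = 1 := by rw [hd]; simp
  have hd1 : d 1 = 0 := by rw [hd]; simp
  have hdge : ∀ x ∈ Ico (0 : ℝ) 1, Real.sqrt (1 - x) ≤ d x := by
    intro x hx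
    rw [hd]
    exact Real.sqrt_le_sqrt (by nlinarith [hx.1, hx.2])
  -- P
  obtain ⟨P, hP⟩ : ∃ P : ℝ → ℂ, P = fun x => (d x : ℂ) * p x := ⟨_, rfl⟩
  have hpn : ∀ x ∈ Ico (0 : ℝ) 1, 3 / 4 ≤ ‖p x‖ ∧ ‖p x‖ ≤ 5 / 4 := by
    intro x hx
    have h := hS.bp x hx
    have h1 : ‖(1 : ℂ)‖ ≤ ‖p x‖ + ‖p x - 1‖ := by
      have := norm_sub_le (p x) (p x - 1)
      simpa using this
    have h2 : ‖p x‖ ≤ ‖p x - 1‖ + ‖(1 : ℂ)‖ := by
      have := norm_add_le (p x - 1) 1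
      simpa using this
    rw [norm_one] at h1 h2
    constructor <;> linarith
  have hEn : ∀ x ∈ Ico (0 : ℝ) 1, 3 / 4 ≤ ‖E x‖ ∧ ‖E x‖ ≤ 5 / 4 := by
    intro x hx
    have h := hS.bE x hx
    have h1 : ‖(1 : ℂ)‖ ≤ ‖E x‖ + ‖E x - 1‖ := by
      have := norm_sub_le (E x) (E x - 1)
      simpa using this
    have h2 : ‖E x‖ ≤ ‖E x - 1‖ + ‖(1 : ℂ)‖ := by
      have := norm_add_le (E x - 1) 1
      simpa using this
    rw [norm_one] at h1 h2
    constructor <;> linarith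
  have hp0 : ∀ x ∈ Ico (0 : ℝ) 1, p x ≠ 0 := by
    intro x hx h
    have := (hpn x hx).1
    rw [h, norm_zero] at this
    linarith
  have hE0 : ∀ x ∈ Ico (0 : ℝ) 1, E x ≠ 0 := by
    intro x hx h
    have := (hEn x hx).1
    rw [h, norm_zero] at this
    linarith
  have hq : ∀ x ∈ Ico (0 : ℝ) 1, q x = (p x)⁻¹ := by
    intro x hx
    exact eq_inv_of_mul_eq_one_right (hS.pq x hx)
  have hqn : ∀ x ∈ Ico (0 : ℝ) 1, ‖q x‖ ≤ 4 / 3 := by
    intro x hx
    rw [hq x hx, norm_inv]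
    rw [inv_le_comm₀ (by linarith [(hpn x hx).1]) (by norm_num)]
    linarith [(hpn x hx).1]
  have hP0 : ∀ x ∈ Ico (0 : ℝ) 1, P x ≠ 0 := by
    intro x hx
    rw [hP]
    exact mul_ne_zero (by exact_mod_cast (hdpos x hx).ne') (hp0 x hx)
  have hP1 : P 1 = 0 := by rw [hP]; simp [hd1]
  have hPc' : ContinuousOn P (Ico (0 : ℝ) 1) := by
    rw [hP]
    exact (Complex.continuous_ofReal.comp hdc).continuousOn.mul hS.cp
  have hPle : ∀ x ∈ Icc (0 : ℝ) 1, ‖P x‖ ≤ 5 / 4 * d x := by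
    intro x hx
    rcases eq_or_lt_of_le hx.2 with h | h
    · rw [h, hP1, hd1]; simp
    · have h1 := (hpn x ⟨hx.1, h⟩).2
      have h2 := hdpos x ⟨hx.1, h⟩
      rw [hP]
      simp only [norm_mul, Complex.norm_real, Real.norm_eq_abs, abs_of_pos h2]
      nlinarith
  have hPc : ContinuousOn P (Icc (0 : ℝ) 1) := by
    intro x hx
    rcases eq_or_lt_of_le hx.2 with h | h
    · subst h
      unfold ContinuousWithinAt
      rw [hP1]
      apply squeeze_zero_norm' (a := fun x => 5 / 4 * d x)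
      · filter_upwards [self_mem_nhdsWithin] with y hy using hPle y hy
      · have h2 : Tendsto (fun x => 5 / 4 * d x) (𝓝 (1:ℝ)) (𝓝 (5 / 4 * d 1)) :=
          ((hdc.tendsto 1).const_mul _)
        rw [hd1, mul_zero] at h2
        exact h2.mono_left nhdsWithin_le_nhds
    · have h1 : ContinuousWithinAt P (Ico (0 : ℝ) 1) x := hPc' x ⟨hx.1, h⟩
      refine h1.mono_of_mem_nhdsWithin ?_
      have h2 : Iio (1 : ℝ) ∈ 𝓝 x := Iio_mem_nhds h
      filter_upwards [self_mem_nhdsWithin, mem_nhdsWithin_of_mem_nhds h2] with y hy hy1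
      exact ⟨hy.1, hy1⟩
  -- the integrand for P
  obtain ⟨F, hF⟩ : ∃ F : ℝ → ℂ, F = fun x => ∫ s in x..1, D 0 s • ((κ : ℂ) * p s) := ⟨_, rfl⟩
  have hgPi : IntervalIntegrable (fun s => D 0 s • ((κ : ℂ) * p s)) volume 0 1 := by
    rw [intervalIntegrable_iff_integrableOn_Ico_of_le zero_le_one]
    have h1 : IntegrableOn (fun s => (κ : ℂ) * P s) (Ico (0 : ℝ) 1) := by
      have h2 : ContinuousOn (fun s => (κ : ℂ) * P s) (Icc (0 : ℝ) 1) := continuousOn_const.mul hPc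
      exact (h2.integrableOn_Icc).mono_set Ico_subset_Icc_self
    refine h1.congr_fun ?_ measurableSet_Ico
    intro s hs
    have := hDd s ⟨hs.1, hs.2.le⟩
    simp only [this, hP, smul_eq_mul]
    ring
  have hPsq : ∀ x ∈ Ico (0 : ℝ) 1, P x ^ 2 = 1 - (x : ℂ) ^ 2 + 2 * F x := by
    intro x hx
    have h := hS.ep x hx
    have h1 := hDd x ⟨hx.1, hx.2.le⟩
    have h2 : ((d x : ℂ)) ^ 2 = 1 - (x : ℂ) ^ 2 := by
      have := hdsq x ⟨hx.1, hx.2.le⟩
      exact_mod_cast congrArg (fun r : ℝ => (r : ℂ)) this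
    have h3 : (d x : ℂ) ≠ 0 := by exact_mod_cast (hdpos x hx).ne'
    rw [h1] at h
    have h4 : P x ^ 2 = (d x : ℂ) ^ 2 * p x ^ 2 := by rw [hP]; ring
    have hFx : F x = ∫ s in x..1, D 0 s • ((κ : ℂ) * p s) := by rw [hF]
    rw [← hFx, smul_eq_mul] at h
    rw [h4, h, ← h2]
    field_simp
  have hFd : ∀ x ∈ Ioo (0 : ℝ) 1, HasDerivAt F (-((κ : ℂ) * P x)) x := by
    intro x hx
    have hxx : x ∈ Icc (0 : ℝ) 1 := ⟨hx.1.le, hx.2.le⟩
    have e : D 0 x • ((κ : ℂ) * p x) = (κ : ℂ) * P x := by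
      rw [hDd x hxx, hP, smul_eq_mul]; ring
    rw [hF, ← e]
    have hmem : Ioo (0 : ℝ) 1 ∈ 𝓝 x := Ioo_mem_nhds hx.1 hx.2
    have hcont : ContinuousOn (fun s => D 0 s • ((κ : ℂ) * p s)) (Ioo (0 : ℝ) 1) := by
      have h2 : ContinuousOn (fun s => (κ : ℂ) * P s) (Ioo (0 : ℝ) 1) :=
        continuousOn_const.mul (hPc.mono Ioo_subset_Icc_self)
      refine h2.congr ?_
      intro s hs
      simp only [hDd s ⟨hs.1.le, hs.2.le⟩, hP, smul_eq_mul]
      ring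
    refine intervalIntegral.integral_hasDerivAt_left ?_ ?_ (hcont.continuousAt hmem)
    · exact hgPi.mono_set (by
        rw [uIcc_of_le hx.2.le, uIcc_of_le zero_le_one]
        exact Icc_subset_Icc_left hx.1.le)
    · exact hcont.stronglyMeasurableAtFilter isOpen_Ioo x hx
  have hPd : ∀ x ∈ Ioo (0 : ℝ) 1, HasDerivAt P (-(x : ℂ) / P x - κ) x := by
    intro x hx
    have hx' : x ∈ Ico (0 : ℝ) 1 := ⟨hx.1.le, hx.2⟩
    have hmem : Ioo (0 : ℝ) 1 ∈ 𝓝 x := Ioo_mem_nhds hx.1 hx.2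
    have hmem' : Icc (0 : ℝ) 1 ∈ 𝓝 x := Icc_mem_nhds hx.1 hx.2
    have h1 : HasDerivAt (fun y : ℝ => P y ^ 2) (-(2 * (x : ℂ)) + 2 * (-((κ : ℂ) * P x))) x := by
      have h2 : HasDerivAt (fun y : ℝ => 1 - (y : ℂ) ^ 2 + 2 * F y)
          (-(2 * (x : ℂ)) + 2 * (-((κ : ℂ) * P x))) x := by
        have h3 : HasDerivAt (fun y : ℝ => (y : ℂ)) 1 x := Complex.ofRealCLM.hasDerivAt
        have h4 := (h3.fun_pow 2).const_sub 1
        have h5 := h4.add ((hFd x hx).const_mul 2)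
        refine h5.congr_deriv ?_
        simp
      refine h2.congr_of_eventuallyEq ?_
      filter_upwards [hmem] with y hy
      exact hPsq y ⟨hy.1.le, hy.2⟩
    have h6 := hasDerivAt_of_sq (hPc.continuousAt hmem') (hP0 x hx') h1
    refine h6.congr_deriv ?_
    have h0 := hP0 x hx'
    field_simp
    ring
  -- the integrand for E
  obtain ⟨Et, hEt⟩ : ∃ Et : ℝ → ℂ, Et = fun x => 1 + ∫ s in x..1, (D 0 s)⁻¹ • ((κ : ℂ) * q s * E s) :=
    ⟨_, rfl⟩
  have hgE : ContinuousOn (fun s => (D 0 s)⁻¹ • ((κ : ℂ) * q s * E s)) (Ico (0 : ℝ) 1) := by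
    have h1 : ContinuousOn (fun s => ((d s : ℂ))⁻¹ * ((κ : ℂ) * q s * E s)) (Ico (0 : ℝ) 1) := by
      refine ContinuousOn.mul (ContinuousOn.inv₀ ?_ ?_) ((continuousOn_const.mul hS.cq).mul hS.cE)
      · exact (Complex.continuous_ofReal.comp hdc).continuousOn
      · intro s hs
        exact_mod_cast (hdpos s hs).ne'
    refine h1.congr ?_
    intro s hs
    simp only [hDd s ⟨hs.1, hs.2.le⟩, smul_eq_mul]
  have hdinv : ∀ x ∈ Ico (0 : ℝ) 1, (d x)⁻¹ ≤ (1 - x) ^ (-(1 / 2) : ℝ) := by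
    intro x hx
    rw [Real.rpow_neg (by linarith [hx.2]), ← Real.sqrt_eq_rpow]
    exact inv_anti₀ (Real.sqrt_pos.2 (by linarith [hx.2])) (hdge x hx)
  have hgEi : IntervalIntegrable (fun s => (D 0 s)⁻¹ • ((κ : ℂ) * q s * E s)) volume 0 1 := by
    refine ii_of_bd (C := |κ| * (4 / 3) * (5 / 4)) hgE ?_
    intro x hx
    rw [hDd x ⟨hx.1, hx.2.le⟩, smul_eq_mul, norm_mul, norm_mul, norm_mul, norm_inv,
      Complex.norm_real, Complex.norm_real, Real.norm_eq_abs, Real.norm_eq_abs,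
      abs_of_pos (hdpos x hx)]
    have h1 := hdinv x hx
    have h2 : |κ| * ‖q x‖ * ‖E x‖ ≤ |κ| * (4 / 3) * (5 / 4) := by
      refine mul_le_mul (mul_le_mul_of_nonneg_left (hqn x hx) (abs_nonneg _)) (hEn x hx).2
        (norm_nonneg _) (by positivity)
    calc (d x)⁻¹ * (|κ| * ‖q x‖ * ‖E x‖) ≤ (1 - x) ^ (-(1 / 2) : ℝ) * (|κ| * (4 / 3) * (5 / 4)) :=
          mul_le_mul h1 h2 (by positivity) ((inv_nonneg.2 (hdpos x hx).le).trans h1)
      _ = _ := by ring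
  have hEtE : ∀ x ∈ Ico (0 : ℝ) 1, Et x = E x := by
    intro x hx
    rw [hEt]
    exact (hS.eE x hx).symm
  have hEt1 : Et 1 = 1 := by rw [hEt]; simp
  have hEtc : ContinuousOn Et (Icc (0 : ℝ) 1) := by
    rw [hEt]
    refine continuousOn_const.add ?_
    have h := intervalIntegral.continuousOn_primitive_interval_left
      (f := fun s => (D 0 s)⁻¹ • ((κ : ℂ) * q s * E s)) (a := 0) (b := 1) (μ := volume) ?_
    · rwa [uIcc_of_le zero_le_one] at h
    · rw [uIcc_of_le zero_le_one, integrableOn_Icc_iff_integrableOn_Ico]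
      rwa [intervalIntegrable_iff_integrableOn_Ico_of_le zero_le_one] at hgEi
  have hEtn : ∀ x ∈ Icc (0 : ℝ) 1, Et x ≠ 0 := by
    intro x hx
    rcases eq_or_lt_of_le hx.2 with h | h
    · rw [h, hEt1]; exact one_ne_zero
    · rw [hEtE x ⟨hx.1, h⟩]; exact hE0 x ⟨hx.1, h⟩
  have hEtd : ∀ x ∈ Ioo (0 : ℝ) 1, HasDerivAt Et (-((κ : ℂ) / P x * Et x)) x := by
    intro x hx
    have hx' : x ∈ Ico (0 : ℝ) 1 := ⟨hx.1.le, hx.2⟩
    have hxx : x ∈ Icc (0 : ℝ) 1 := ⟨hx.1.le, hx.2.le⟩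
    have e : (D 0 x)⁻¹ • ((κ : ℂ) * q x * E x) = (κ : ℂ) / P x * Et x := by
      rw [hDd x hxx, hEtE x hx', hP, smul_eq_mul, hq x hx']
      have h3 : (d x : ℂ) ≠ 0 := by exact_mod_cast (hdpos x hx').ne'
      have h4 := hp0 x hx'
      field_simp
    have h := intervalIntegral.integral_hasDerivAt_left
      (f := fun s => (D 0 s)⁻¹ • ((κ : ℂ) * q s * E s)) (a := x) (b := 1) ?_ ?_ ?_
    · have h2 := h.const_add 1
      rw [← e, hEt]
      exact h2
    · exact hgEi.mono_set (by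
        rw [uIcc_of_le hx.2.le, uIcc_of_le zero_le_one]
        exact Icc_subset_Icc_left hx.1.le)
    · exact (hgE.mono Ioo_subset_Ico_self).stronglyMeasurableAtFilter isOpen_Ioo x hx
    · exact (hgE.mono Ioo_subset_Ico_self).continuousAt (Ioo_mem_nhds hx.1 hx.2)
  -- Q = E
  obtain ⟨Q, hQ⟩ : ∃ Q : ℝ → ℂ, Q = fun x : ℝ => (x : ℂ) ^ 2 + (κ : ℂ) * x * P x + P x ^ 2 := ⟨_, rfl⟩
  have hofc : ContinuousOn (fun x : ℝ => (x : ℂ)) (Icc (0 : ℝ) 1) :=
    Complex.continuous_ofReal.continuousOn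
  have hQc : ContinuousOn Q (Icc (0 : ℝ) 1) := by
    rw [hQ]
    exact ((hofc.pow 2).add ((continuousOn_const.mul hofc).mul hPc)).add (hPc.pow 2)
  have hQd : ∀ x ∈ Ioo (0 : ℝ) 1, HasDerivAt Q (-((κ : ℂ) / P x * Q x)) x := by
    intro x hx
    have hx' : x ∈ Ico (0 : ℝ) 1 := ⟨hx.1.le, hx.2⟩
    have h0 := hP0 x hx'
    have h3 : HasDerivAt (fun y : ℝ => (y : ℂ)) 1 x := Complex.ofRealCLM.hasDerivAt
    have h4 := hPd x hx
    have h5 := ((h3.fun_pow 2).add ((h3.const_mul (κ : ℂ)).mul h4)).add (h4.fun_pow 2)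
    rw [hQ]
    refine h5.congr_deriv ?_
    simp only [Nat.cast_ofNat, Nat.add_one_sub_one, pow_one, mul_one]
    field_simp
    ring
  have hQE : ∀ x ∈ Ico (0 : ℝ) 1, Q x = E x := by
    intro x hx
    have h1 : ContinuousOn (fun y => Q y / Et y) (Icc x 1) :=
      (hQc.div hEtc hEtn).mono (Icc_subset_Icc_left hx.1)
    have h2 : ∀ y ∈ Ioo x 1, HasDerivAt (fun y => Q y / Et y) ((fun _ : ℝ => (0 : ℂ)) y) y := by
      intro y hy
      have hy' : y ∈ Ioo (0 : ℝ) 1 := ⟨lt_of_le_of_lt hx.1 hy.1, hy.2⟩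
      have h3 := (hQd y hy').div (hEtd y hy') (hEtn y ⟨hy'.1.le, hy'.2.le⟩)
      refine h3.congr_deriv ?_
      have : -((κ : ℂ) / P y * Q y) * Et y - Q y * -((κ : ℂ) / P y * Et y) = 0 := by ring
      rw [this, zero_div]
    have h4 := intervalIntegral.integral_eq_sub_of_hasDerivAt_of_le hx.2.le h1 h2
      (by simp)
    simp only [intervalIntegral.integral_zero] at h4
    have h5 : Q 1 / Et 1 = 1 := by
      rw [hEt1, hQ]
      simp [hP1]
    rw [h5] at h4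
    have h6 : Q x / Et x = 1 := (sub_eq_zero.1 h4.symm).symm
    rw [div_eq_one_iff_eq (hEtn x ⟨hx.1, hx.2.le⟩)] at h6
    rw [h6, hEtE x hx]
  -- the integral
  have h00 : (0 : ℝ) ∈ Ico (0 : ℝ) 1 := ⟨le_rfl, zero_lt_one⟩
  obtain ⟨Φ, hΦ⟩ : ∃ Φ : ℝ → ℂ, Φ = fun x : ℝ => (1 - (x : ℂ)) * (x / P x) - P x - κ * x := ⟨_, rfl⟩
  obtain ⟨G, hG⟩ : ∃ G : ℝ → ℂ,
      G = fun x : ℝ => ((1 - (x : ℂ)) * (D 0 x)⁻¹ ^ 3) • (E x * q x ^ 3) := ⟨_, rfl⟩
  have hGe : ∀ x ∈ Ico (0 : ℝ) 1, G x = (1 - (x : ℂ)) * (E x / P x ^ 3) := by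
    intro x hx
    have h3 : (d x : ℂ) ≠ 0 := by exact_mod_cast (hdpos x hx).ne'
    have h4 := hp0 x hx
    rw [hG]
    simp only [hDd x ⟨hx.1, hx.2.le⟩, smul_eq_mul, hq x hx, hP]
    field_simp
  have hGc : ContinuousOn G (Ico (0 : ℝ) 1) := by
    have h1 : ContinuousOn (fun x : ℝ => (1 - (x : ℂ)) * (E x / P x ^ 3)) (Ico (0 : ℝ) 1) :=
      (continuousOn_const.sub (hofc.mono Ico_subset_Icc_self)).mul
        (hS.cE.div (hPc'.pow 3) fun x hx => pow_ne_zero 3 (hP0 x hx))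
    exact h1.congr hGe
  have hGi : IntervalIntegrable G volume 0 1 := by
    refine ii_of_bd (C := 5 / 4 * (4 / 3) ^ 3) hGc ?_
    intro x hx
    have hx1 : 0 < 1 - x := by linarith [hx.2]
    have h1 := hdinv x hx
    have h2 : (d x)⁻¹ ^ 3 ≤ ((1 - x) ^ (-(1 / 2) : ℝ)) ^ 3 :=
      pow_le_pow_left₀ (inv_nonneg.2 (hdpos x hx).le) h1 3
    have h3 : (1 - x) * ((1 - x) ^ (-(1 / 2) : ℝ)) ^ 3 = (1 - x) ^ (-(1 / 2) : ℝ) := by
      rw [← Real.rpow_natCast, ← Real.rpow_mul hx1.le]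
      nth_rewrite 1 [← Real.rpow_one (1 - x)]
      rw [← Real.rpow_add hx1]
      norm_num
    have h4 : ‖(1 - (x : ℂ))‖ = 1 - x := by
      have : (1 - (x : ℂ)) = ((1 - x : ℝ) : ℂ) := by push_cast; ring
      rw [this, Complex.norm_real, Real.norm_eq_abs, abs_of_pos hx1]
    have h5 : ‖G x‖ = (1 - x) * (d x)⁻¹ ^ 3 * (‖E x‖ * ‖q x‖ ^ 3) := by
      rw [hG]
      simp only [hDd x ⟨hx.1, hx.2.le⟩, smul_eq_mul, norm_mul, norm_pow, norm_inv, h4,
        Complex.norm_real, Real.norm_eq_abs, abs_of_pos (hdpos x hx)]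
    rw [h5]
    calc (1 - x) * (d x)⁻¹ ^ 3 * (‖E x‖ * ‖q x‖ ^ 3) ≤
        ((1 - x) * ((1 - x) ^ (-(1 / 2) : ℝ)) ^ 3) * (5 / 4 * (4 / 3) ^ 3) := by
          refine mul_le_mul (mul_le_mul_of_nonneg_left h2 hx1.le) ?_ (by positivity) ?_
          · exact mul_le_mul (hEn x hx).2 (pow_le_pow_left₀ (norm_nonneg _) (hqn x hx) 3)
              (by positivity) (by norm_num)
          · rw [h3]; positivity
      _ = _ := by rw [h3]; ring
  have hΦc : ContinuousOn Φ (Icc (0 : ℝ) 1) := by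
    rw [hΦ]
    refine ContinuousOn.sub (ContinuousOn.sub ?_ hPc) (continuousOn_const.mul hofc)
    intro x hx
    rcases eq_or_lt_of_le hx.2 with h | h
    · subst h
      unfold ContinuousWithinAt
      have e1 : (fun x : ℝ => (1 - (x : ℂ)) * ((x : ℂ) / P x)) 1 = 0 := by simp
      rw [e1]
      apply squeeze_zero_norm' (a := fun x => Real.sqrt (1 - x) * (4 / 3))
      · filter_upwards [self_mem_nhdsWithin] with y hy
        rcases eq_or_lt_of_le hy.2 with h | h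
        · rw [h]; simp
        · have hy' : y ∈ Ico (0 : ℝ) 1 := ⟨hy.1, h⟩
          have hy1 : 0 < 1 - y := by linarith
          have h4 : ‖(1 - (y : ℂ))‖ = 1 - y := by
            have : (1 - (y : ℂ)) = ((1 - y : ℝ) : ℂ) := by push_cast; ring
            rw [this, Complex.norm_real, Real.norm_eq_abs, abs_of_pos hy1]
          have h5 : Real.sqrt (1 - y) * (3 / 4) ≤ ‖P y‖ := by
            rw [hP]
            simp only [norm_mul, Complex.norm_real, Real.norm_eq_abs, abs_of_pos (hdpos y hy')]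
            exact mul_le_mul (hdge y hy') (hpn y hy').1 (by norm_num) (hdpos y hy').le
          have h6 : 0 < Real.sqrt (1 - y) := Real.sqrt_pos.2 hy1
          rw [norm_mul, norm_div, h4, Complex.norm_real, Real.norm_eq_abs, abs_of_nonneg hy.1]
          have h7 : 0 < ‖P y‖ := lt_of_lt_of_le (by positivity) h5
          rw [← mul_div_assoc, div_le_iff₀ h7]
          calc (1 - y) * y ≤ (1 - y) * 1 := mul_le_mul_of_nonneg_left hy.2 hy1.le
            _ = Real.sqrt (1 - y) * (4 / 3) * (Real.sqrt (1 - y) * (3 / 4)) := by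
                nlinarith [Real.mul_self_sqrt hy1.le]
            _ ≤ _ := mul_le_mul_of_nonneg_left h5 (by positivity)
      · have h2 : Continuous (fun x : ℝ => Real.sqrt (1 - x) * (4 / 3)) := by fun_prop
        have h3 := h2.tendsto 1
        simp only [sub_self, Real.sqrt_zero, zero_mul] at h3
        exact h3.mono_left nhdsWithin_le_nhds
    · have h1 : ContinuousWithinAt (fun x : ℝ => (1 - (x : ℂ)) * ((x : ℂ) / P x)) (Icc (0 : ℝ) 1) x := by
        have hx' : x ∈ Ico (0 : ℝ) 1 := ⟨hx.1, h⟩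
        exact (continuousWithinAt_const.sub (hofc x hx)).mul
          ((hofc x hx).div (hPc x hx) (hP0 x hx'))
      exact h1
  have hΦd : ∀ x ∈ Ioo (0 : ℝ) 1, HasDerivAt Φ (G x) x := by
    intro x hx
    have hx' : x ∈ Ico (0 : ℝ) 1 := ⟨hx.1.le, hx.2⟩
    have h0 := hP0 x hx'
    have h3 : HasDerivAt (fun y : ℝ => (y : ℂ)) 1 x := Complex.ofRealCLM.hasDerivAt
    have h4 := hPd x hx
    have h5 := (((h3.const_sub 1).mul (h3.div h4 h0)).sub h4).sub (h3.const_mul (κ : ℂ))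
    rw [hΦ]
    refine h5.congr_deriv ?_
    rw [hGe x hx', ← hQE x hx', hQ]
    simp only [mul_one, Pi.div_apply]
    field_simp
    ring
  have hint := intervalIntegral.integral_eq_sub_of_hasDerivAt_of_le zero_le_one hΦc hΦd hGi
  have hΦ1 : Φ 1 = -κ := by rw [hΦ]; simp [hP1]
  have hΦ0 : Φ 0 = -P 0 := by rw [hΦ]; simp
  unfold upsOf
  have hGint : ∫ x in (0 : ℝ)..1, ((1 - (x : ℂ)) * (D 0 x)⁻¹ ^ 3) • (E x * q x ^ 3) =
      P 0 - κ := by
    have : ∫ x in (0 : ℝ)..1, ((1 - (x : ℂ)) * (D 0 x)⁻¹ ^ 3) • (E x * q x ^ 3) =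
        ∫ x in (0 : ℝ)..1, G x := by rw [hG]
    rw [this, hint, hΦ1, hΦ0]
    ring
  rw [hGint]
  have hD00 : D 0 0 = 1 := by
    rw [hDd 0 ⟨le_rfl, zero_le_one⟩, hd0]
    simp
  have hP00 : P 0 = p 0 := by rw [hP]; simp [hd0]
  have hE00 : E 0 = P 0 ^ 2 := by
    rw [← hQE 0 h00, hQ]
    simp
  rw [hD00, hE00, hq 0 h00, hP00]
  have h4 := hp0 0 h00
  simp only [inv_one, one_smul]
  field_simp
  ring

end Pool.Agent.W82.UN.Const
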